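import Pool.Agent.H1.HKB.REM
import Pool.Agent.H11.HKB.ASY
import Pool.Agent.H13.HKB.DCT
import Pool.Agent.H16.HKB.CNT
import Pool.Agent.H16.HKB.RED
import Pool.Agent.H19.HKB.HVY
import Pool.Agent.H19.HKB.L2
import Pool.Agent.H22.HKB.BLK
import Pool.Agent.H22.HKB.INB
import Pool.Agent.H22.HKB.INT
import Pool.Agent.H22.HKB.SLA
import Pool.Agent.H22.HKB.SLB
import Pool.Agent.H25.HKB.CPY
import Pool.Agent.H25.HKB.TPL
import Pool.Agent.H41.HKB.LOC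
import Pool.Agent.H45.HKB.W1
import Pool.Agent.H52.HKB.EMB
import Pool.Agent.H52.HKB.INC
import Pool.Agent.H52.HKB.IND
import Pool.Agent.H52.HKB.SPL
import Pool.Agent.H57.HKB.DEG
import Pool.Agent.H57.HKB.INA
import Pool.Agent.H57.HKB.XCH
import Pool.Agent.H82.HKB.PACK
import Pool.Agent.H84.HKB.BAD
import Pool.Agent.H84.HKB.SUP

/-!
# Assembly of hkb_modules
-/

set_option autoImplicit false

namespace Pool.Agent.H41.HKB

open Finset Filter Pool.Agent.H42.BD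

theorem all_HKB : T_FIN := by
  have hEMB : T_EMB := H52.HKB.pf_EMB
  have hHVY : T_HVY := H19.HKB.pf_HVY hEMB
  have hCW : T_CW := H19.HKB.pf_CW
  have hRAM : T_RAM := H19.HKB.pf_RAM
  have hDEG : T_DEG := H57.HKB.pf_DEG hHVY hCW
  have hINA : T_INA := H57.HKB.pf_INA hHVY hCW
  have hL2 : T_L2 := H19.HKB.pf_L2 hHVY hCW
  have hDCT : T_DCT := H13.HKB.pf_DCT hL2
  have hREM : T_REM := H1.HKB.pf_REM H16.HKB.pf_CNT H16.HKB.pf_RED
  have hPACK : T_PACK := H82.HKB.pf_PACK hREM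
  have hINB : T_INB := H22.HKB.pf_INB hINA hREM
  have hINT : T_INT := H22.HKB.pf_INT hRAM hINB H52.HKB.pf_INC H52.HKB.pf_IND
  have hSPL : T_SPL := H52.HKB.pf_SPL hDCT
  have hOUT : T_OUT := H45.HKB.pf_OUT hL2
  have hXCH : T_XCH := H57.HKB.pf_XCH hSPL hOUT
  have hGZ : T_GZ := H45.HKB.pf_GZ hL2
  have hSEL : T_SEL := H45.HKB.pf_SEL H22.HKB.pf_SLA H22.HKB.pf_SLB
  have hTPL : T_TPL := H25.HKB.pf_TPL hSEL hHVY
  have hCTP : T_CTP := H45.HKB.pf_CTP hDCT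
  have hCTQ : T_CTQ := H45.HKB.pf_CTQ hCTP
  have hSUP : T_SUP := H84.HKB.pf_SUP hPACK hCTQ
  have hBAD : T_BAD := H84.HKB.pf_BAD hCTP hCTQ
  have hCPY : T_CPY := H25.HKB.pf_CPY hEMB H22.HKB.pf_BLK
  have hLOC : T_LOC := pf_LOC hINT hXCH H45.HKB.pf_WSM hGZ hTPL H45.HKB.pf_PIG hHVY hSUP hBAD hCPY
  exact H45.HKB.pf_FIN (H11.HKB.pf_ASY hLOC hDEG)

end Pool.Agent.H41.HKB
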