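import Mathlib
import Pool.Agent.H42.BD.AsympK

/-!
# Definitions for the bound `c_k <= (3/4) k^(3/4)` (MP_bd932b_co)

Codegrees, light, deep and intermediate pairs, the cleaned common neighbourhoods `Sp`, the private
connectors `Np` and the weights `wp`. Page: /team-store/H41_HKB.md.
-/

set_option autoImplicit false

namespace Pool.Agent.H41.HKB

open Finset Pool.Agent.H42.BD
open scoped Classical

noncomputable section

/-- `sqrt n` -/
def sn (V : Type) [Fintype V] : ℝ := Real.sqrt (Fintype.card V)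

/-- the number of vertices of `H_k` -/
def hk (k : ℕ) : ℕ := 1 + k + k.choose 2

/-- the constant in the second moment of the codegrees -/
def C2 (k : ℕ) (M : ℝ) : ℝ := ((k : ℝ) - 1) * ((hk k : ℝ) + 1) * M ^ 2

/-- the number of ordered adjacent pairs -/
def oe {V : Type} [Fintype V] (G : SimpleGraph V) : ℕ :=
  ((univ : Finset (V × V)).filter (fun p => G.Adj p.1 p.2)).card

variable {V : Type} [Fintype V]

/-- codegree -/
def cd (G : SimpleGraph V) (u v : V) : ℕ := (cn G u v).card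

/-- light pairs -/
def Lt (T : ℕ) (G : SimpleGraph V) (u v : V) : Prop := u ≠ v ∧ cd G u v < T

/-- deep pairs -/
def Dp (ε : ℝ) (G : SimpleGraph V) (u v : V) : Prop := u ≠ v ∧ ε * sn V ≤ (cd G u v : ℝ)

/-- intermediate pairs -/
def Im (T : ℕ) (ε : ℝ) (G : SimpleGraph V) (u v : V) : Prop :=
  u ≠ v ∧ T ≤ cd G u v ∧ (cd G u v : ℝ) < ε * sn V

/-- `H_k`-free with all degrees at most `M sqrt n` -/
structure Gd (k : ℕ) (M : ℝ) (G : SimpleGraph V) : Prop where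
  free : (HG k).Free G
  deg : ∀ v, ((nb G v).card : ℝ) ≤ M * sn V

/-- the cleaned common neighbourhood of `x` and `z` -/
def Sp (T : ℕ) (ε : ℝ) (G : SimpleGraph V) (x z : V) : Finset V :=
  (cn G x z).filter (fun y => (∀ y' ∈ cn G x z, ¬ Im T ε G y y') ∧
    ∀ y1 ∈ cn G x z, ∀ y3 ∈ cn G x z, Dp ε G y y1 → Dp ε G y y3 → ¬ Lt T G y1 y3)

/-- the connectors allowed at the centre `x` -/
def Zp (ε' : ℝ) (G : SimpleGraph V) (x : V) : Finset V :=
  univ.filter (fun z => z ≠ x ∧ ¬ G.Adj x z ∧ (cd G x z : ℝ) < ε' * sn V)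

/-- the private common neighbours of `y` and `y'` at the centre `x` -/
def Np (T : ℕ) (ε ε' : ℝ) (G : SimpleGraph V) (x y y' : V) : Finset V :=
  (Zp ε' G x).filter (fun z => y ∈ Sp T ε G x z ∧ y' ∈ Sp T ε G x z)

/-- the weight of a pair -/
def wp (T : ℕ) (ε ε' : ℝ) (G : SimpleGraph V) (x y y' : V) : ℝ :=
  1 / ((Np T ε ε' G x y y').card : ℝ)

/-- equal or deep -/
def Sm (ε : ℝ) (G : SimpleGraph V) (u v : V) : Prop := u = v ∨ Dp ε G u v

/-- the weight of the pairs from different classes in `Sp x z` -/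
def Wz (T : ℕ) (ε ε' : ℝ) (G : SimpleGraph V) (x z : V) : ℝ :=
  (1 / 2) * ∑ a ∈ Sp T ε G x z, ∑ b ∈ Sp T ε G x z,
    (if Sm ε G a b then 0 else wp T ε ε' G x a b)

/-- the pairs used in the row INT -/
def Qr (k T : ℕ) (ε : ℝ) (G : SimpleGraph V) (y u v : V) : Prop :=
  u ≠ v ∧ cd G u v < hk k ∧ ∃ y', Im T ε G y y' ∧ u ∈ cn G y y' ∧ v ∈ cn G y y'

/-- the sum of the squares of the intermediate codegrees at `y` -/
def Is (T : ℕ) (ε : ℝ) (G : SimpleGraph V) (y : V) : ℝ :=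
  ∑ y' : V, (if Im T ε G y y' then (cd G y y' : ℝ) ^ 2 else 0)

/-- the sum over the block of the classes of `i` and `j` -/
def bl {k : ℕ} (T : ℕ) (ε ε' : ℝ) (G : SimpleGraph V) (x : V) (ρ : Fin k → Fin k) (y : Fin k → V)
    (i j : Fin k) : ℝ :=
  ∑ a : Fin k, ∑ b : Fin k,
    (if ρ a = ρ i ∧ ρ b = ρ j then wp T ε ε' G x (y a) (y b) else 0)

/-- the tuples of pattern `ρ`: deep inside the classes, light with private block systems across -/
def YS {k : ℕ} (T : ℕ) (ε ε' : ℝ) (G : SimpleGraph V) (x : V) (ρ : Fin k → Fin k) :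
    Finset (Fin k → V) :=
  univ.filter (fun y => (∀ i, G.Adj x (y i)) ∧
    (∀ i j, i ≠ j → ρ i = ρ j → Dp ε G (y i) (y j)) ∧
    (∀ i j, ρ i ≠ ρ j → Lt T G (y i) (y j) ∧ (Np T ε ε' G x (y i) (y j)).Nonempty ∧
      bl T ε ε' G x ρ y i j ≤ 1))

/-- some private connector of a block touches a third class -/
def Bad {k : ℕ} (T : ℕ) (ε ε' : ℝ) (G : SimpleGraph V) (x : V) (ρ : Fin k → Fin k)
    (y : Fin k → V) : Prop :=
  ∃ i j l : Fin k, ρ i ≠ ρ j ∧ ρ l ≠ ρ i ∧ ρ l ≠ ρ j ∧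
    ∃ z ∈ Np T ε ε' G x (y i) (y j), G.Adj z (y l)

/-- bound for the number of deep partners -/
def Dd (k : ℕ) (M ε : ℝ) : ℝ := 1 + C2 k M / ε ^ 2

/-- bound for the number of deep tuples in a class -/
def sB (k : ℕ) (M ε : ℝ) (V : Type) [Fintype V] : ℝ := M * sn V * Dd k M ε ^ k

/-- the number of classes -/
def cls {k : ℕ} (ρ : Fin k → Fin k) : ℕ := (univ.image ρ).card

/-! ## Simple facts -/

theorem cd_comm (G : SimpleGraph V) (u v : V) : cd G u v = cd G v u := by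
  unfold cd; rw [cn_comm]

theorem Lt.symm {T : ℕ} {G : SimpleGraph V} {u v : V} (h : Lt T G u v) : Lt T G v u :=
  ⟨h.1.symm, by rw [cd_comm]; exact h.2⟩

theorem Dp.symm {ε : ℝ} {G : SimpleGraph V} {u v : V} (h : Dp ε G u v) : Dp ε G v u :=
  ⟨h.1.symm, by rw [cd_comm]; exact h.2⟩

theorem Im.symm {T : ℕ} {ε : ℝ} {G : SimpleGraph V} {u v : V} (h : Im T ε G u v) :
    Im T ε G v u :=
  ⟨h.1.symm, by rw [cd_comm]; exact h.2.1, by rw [cd_comm]; exact h.2.2⟩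

theorem Sm.refl {ε : ℝ} {G : SimpleGraph V} (u : V) : Sm ε G u u := Or.inl rfl

theorem Sm.symm {ε : ℝ} {G : SimpleGraph V} {u v : V} (h : Sm ε G u v) : Sm ε G v u := by
  rcases h with h | h
  · exact Or.inl h.symm
  · exact Or.inr h.symm

theorem mem_Sp {T : ℕ} {ε : ℝ} {G : SimpleGraph V} {x z y : V} :
    y ∈ Sp T ε G x z ↔ y ∈ cn G x z ∧ (∀ y' ∈ cn G x z, ¬ Im T ε G y y') ∧
    ∀ y1 ∈ cn G x z, ∀ y3 ∈ cn G x z, Dp ε G y y1 → Dp ε G y y3 → ¬ Lt T G y1 y3 := by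
  unfold Sp; rw [mem_filter]

theorem Sp_sub {T : ℕ} {ε : ℝ} {G : SimpleGraph V} {x z : V} : Sp T ε G x z ⊆ cn G x z :=
  filter_subset _ _

/-- two vertices of `Sp x z` are equal, deep or light -/
theorem Sp_cases {T : ℕ} {ε : ℝ} {G : SimpleGraph V} {x z a b : V} (ha : a ∈ Sp T ε G x z)
    (hb : b ∈ cn G x z) : Sm ε G a b ∨ Lt T G a b := by
  by_cases hab : a = b
  · exact Or.inl (Or.inl hab)
  · have h := (mem_Sp.mp ha).2.1 b hb
    by_cases h1 : cd G a b < T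
    · exact Or.inr ⟨hab, h1⟩
    · left; right
      refine ⟨hab, ?_⟩
      by_contra h2
      exact h ⟨hab, by omega, lt_of_not_ge h2⟩

/-- `equal or deep` is transitive on `Sp x z` (for `T` at most `eps sqrt n`) -/
theorem Sp_trans {T : ℕ} {ε : ℝ} {G : SimpleGraph V} {x z a b c : V}
    (ha : a ∈ Sp T ε G x z) (hb : b ∈ Sp T ε G x z)
    (hc : c ∈ Sp T ε G x z) (hab : Sm ε G a b) (hbc : Sm ε G b c) : Sm ε G a c := by
  rcases hab with rfl | hab
  · exact hbc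
  rcases hbc with rfl | hbc
  · exact Or.inr hab
  rcases Sp_cases ha (Sp_sub hc) with h | h
  · exact h
  · exact absurd h ((mem_Sp.mp hb).2.2 a (Sp_sub ha) c (Sp_sub hc) hab.symm hbc)

/-- a pair of `Sp x z` is not both deep and light if `T` is at most `eps sqrt n` -/
theorem not_Sm_of_Lt {T : ℕ} {ε : ℝ} {G : SimpleGraph V} {a b : V} (hT : (T : ℝ) ≤ ε * sn V)
    (h : Lt T G a b) : ¬ Sm ε G a b := by
  rintro (h1 | h1)
  · exact h.1 h1
  · have h2 : (cd G a b : ℝ) < T := by exact_mod_cast h.2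
    have := h1.2
    linarith

theorem Np_comm (T : ℕ) (ε ε' : ℝ) (G : SimpleGraph V) (x y y' : V) :
    Np T ε ε' G x y y' = Np T ε ε' G x y' y := by
  unfold Np; ext z; rw [mem_filter, mem_filter]; tauto

theorem wp_comm (T : ℕ) (ε ε' : ℝ) (G : SimpleGraph V) (x y y' : V) :
    wp T ε ε' G x y y' = wp T ε ε' G x y' y := by
  unfold wp; rw [Np_comm]

theorem wp_nonneg (T : ℕ) (ε ε' : ℝ) (G : SimpleGraph V) (x y y' : V) :
    0 ≤ wp T ε ε' G x y y' := by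
  unfold wp; positivity

theorem Wz_nonneg (T : ℕ) (ε ε' : ℝ) (G : SimpleGraph V) (x z : V) : 0 ≤ Wz T ε ε' G x z := by
  unfold Wz
  have : 0 ≤ ∑ a ∈ Sp T ε G x z, ∑ b ∈ Sp T ε G x z,
      (if Sm ε G a b then 0 else wp T ε ε' G x a b) := by
    refine sum_nonneg (fun a _ => sum_nonneg (fun b _ => ?_))
    split_ifs
    · exact le_refl _
    · exact wp_nonneg _ _ _ _ _ _ _
  linarith

theorem mem_Np {T : ℕ} {ε ε' : ℝ} {G : SimpleGraph V} {x y y' z : V} :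
    z ∈ Np T ε ε' G x y y' ↔ (z ≠ x ∧ ¬ G.Adj x z ∧ (cd G x z : ℝ) < ε' * sn V) ∧
      y ∈ Sp T ε G x z ∧ y' ∈ Sp T ε G x z := by
  unfold Np Zp; rw [mem_filter, mem_filter]; simp

theorem Np_sub_cn {T : ℕ} {ε ε' : ℝ} {G : SimpleGraph V} {x y y' : V} :
    Np T ε ε' G x y y' ⊆ cn G y y' := by
  intro z hz
  rw [mem_Np] at hz
  have h1 := Sp_sub hz.2.1
  have h2 := Sp_sub hz.2.2
  rw [mem_cn] at h1 h2 ⊢
  exact ⟨h1.2.symm, h2.2.symm⟩

end

end Pool.Agent.H41.HKB
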