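import Pool.Agent.H41.HKB.ALL

/-!
# The form with `eventually`
-/

set_option autoImplicit false

namespace Pool.Agent.H41.HKB

open Filter Pool.Agent.H42.BD

theorem ev_of_limsup {k : ℕ} (hk2 : 2 ≤ k) {B : ℝ}
    (h : Filter.limsup (fun n : ℕ => fT n k / (n : ℝ) ^ ((3 : ℝ) / 2)) atTop ≤ B)
    {ε : ℝ} (hε : 0 < ε) :
    ∀ᶠ n : ℕ in atTop, fT n k ≤ (B + ε) * (n : ℝ) ^ ((3 : ℝ) / 2) := by
  have hbdd : Filter.IsBoundedUnder (· ≤ ·) atTop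
      (fun n : ℕ => fT n k / (n : ℝ) ^ ((3 : ℝ) / 2)) :=
    ⟨Real.sqrt ((k : ℝ) * ((k : ℝ) - 1) / 8) + 1, by
      rw [Filter.eventually_map]
      filter_upwards [upper_all hk2 one_pos, Filter.eventually_gt_atTop 0] with n hn hn0
      have : (0 : ℝ) < (n : ℝ) ^ ((3 : ℝ) / 2) := Real.rpow_pos_of_pos (by exact_mod_cast hn0) _
      rw [div_le_iff₀ this]
      exact hn⟩
  have h1 := Filter.eventually_lt_of_limsup_lt (lt_of_le_of_lt h (lt_add_of_pos_right B hε)) hbdd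
  filter_upwards [h1, Filter.eventually_gt_atTop 0] with n hn hn0
  have : (0 : ℝ) < (n : ℝ) ^ ((3 : ℝ) / 2) := Real.rpow_pos_of_pos (by exact_mod_cast hn0) _
  rw [div_lt_iff₀ this] at hn
  exact hn.le

theorem ev_HKB (k : ℕ) (hk2 : 2 ≤ k) (ε : ℝ) (hε : 0 < ε) :
    ∀ᶠ n : ℕ in atTop,
      fT n k ≤ ((3 / 4) * (k : ℝ) ^ ((3 : ℝ) / 4) + ε) * (n : ℝ) ^ ((3 : ℝ) / 2) :=
  ev_of_limsup hk2 (all_HKB k hk2) hε

end Pool.Agent.H41.HKB
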