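import Pool.Agent.H41.HKB.Targets

/-!
# Row LOC of hkb_modules
-/

set_option autoImplicit false

namespace Pool.Agent.H41.HKB

open Finset Filter Pool.Agent.H42.BD
open scoped Classical

theorem C2_pos {k : ℕ} {M : ℝ} (hk2 : 2 ≤ k) (hM : 0 < M) : 0 < C2 k M := by
  unfold C2
  have : (2 : ℝ) ≤ k := by exact_mod_cast hk2
  have h1 : 0 < (k : ℝ) - 1 := by linarith
  have h2 : (0 : ℝ) ≤ (hk k : ℝ) := by positivity
  have h3 : 0 < (hk k : ℝ) + 1 := by linarith
  positivity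

theorem sn_ge {V : Type} [Fintype V] {B : ℝ} {n0 : ℕ} (hB : 0 ≤ B) (h0 : B ^ 2 ≤ n0)
    (h : n0 ≤ Fintype.card V) : B ≤ sn V := by
  unfold sn
  rw [← Real.sqrt_sq hB]
  refine Real.sqrt_le_sqrt (le_trans h0 ?_)
  exact_mod_cast h

theorem pf_LOC (hINT : T_INT) (hXCH : T_XCH) (hWSM : T_WSM) (hGZ : T_GZ) (hTPL : T_TPL)
    (hPIG : T_PIG) (hHVY : T_HVY) (hSUP : T_SUP) (hBAD : T_BAD) (hCPY : T_CPY) : T_LOC := by
  intro k M lam hk9 hM hlam
  have hk2 : 2 ≤ k := by omega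
  have hkR : (9 : ℝ) ≤ k := by exact_mod_cast hk9
  have hC2 := C2_pos hk2 hM
  set t : ℝ := Real.sqrt k with ht
  have ht0 : 0 ≤ t := Real.sqrt_nonneg _
  have htp : 0 < t := by rw [ht]; positivity
  set θ : ℝ := (3 / 2) * t ^ 3 with hθ
  have hθ0 : 0 < θ := by positivity
  set γ : ℝ := 2 / 3 * lam - θ with hγ
  have hγ0 : 0 < γ := by rw [hγ, hθ]; linarith
  have hlam0 : 0 < lam := lt_trans (by positivity) hlam
  set δ : ℝ := γ / 4 with hδ
  set η : ℝ := γ / 2 with hη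
  have hδ0 : 0 < δ := by positivity
  have hη0 : 0 < η := by positivity
  obtain ⟨T, hTh, hI⟩ := hINT k hk2
  obtain ⟨ε, hε, n1, hI⟩ := hI M δ hM hδ0
  set c : ℝ := η ^ 2 / C2 k M / (k : ℝ) ^ k with hc
  have hc0 : 0 < c := by positivity
  obtain ⟨κ, hκ, hS⟩ := hSUP k T M ε c hk2 hM hε hc0
  have hTp : (0 : ℝ) < T := by
    have : 0 < hk k := by unfold hk; omega
    exact_mod_cast lt_of_lt_of_le this hTh
  set ε' : ℝ := κ * M / (2 * (k : ℝ) ^ 3 * T) with hε'
  have hε'0 : 0 < ε' := by positivity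
  obtain ⟨n2, hX⟩ := hXCH k T M ε ε' δ lam hk2 hM hε hε'0 hδ0 hlam0
  refine ⟨n1 + n2 + ⌈(T / ε) ^ 2⌉₊ + 1, fun V _ G hn hG => ?_⟩
  by_contra hcon
  push Not at hcon
  have hn1 : n1 ≤ Fintype.card V := by omega
  have hn2 : n2 ≤ Fintype.card V := by omega
  have hnp : 1 ≤ Fintype.card V := by omega
  have hnR : (1 : ℝ) ≤ Fintype.card V := by exact_mod_cast hnp
  have hTsn : (T : ℝ) ≤ ε * sn V := by
    have h1 : T / ε ≤ sn V := by
      refine sn_ge (n0 := ⌈(T / ε) ^ 2⌉₊) (by positivity) (Nat.le_ceil _) (by omega)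
    rw [div_le_iff₀ hε] at h1
    linarith
  have hhsn : (hk k : ℝ) ≤ ε * sn V := le_trans (by exact_mod_cast hTh) hTsn
  have hIs := hI V G hn1 hG
  obtain ⟨x, hx⟩ := hX V G hn2 hG hIs hcon
  -- good connectors
  have hW := hWSM T ε ε' V G x
  have hsum : (θ + η) * Fintype.card V ≤
      ∑ z ∈ Zp ε' G x, (((Sp T ε G x z).card : ℝ) - 2 / 3 * Wz T ε ε' G x z) := by
    rw [sum_sub_distrib, ← mul_sum]
    have e1 : (θ + η) * Fintype.card V = (2 / 3 * lam - 2 * δ) * Fintype.card V := by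
      rw [hη, hδ, hγ]; ring
    rw [e1]
    linarith
  have hgood := hGZ k T M ε ε' θ η hk2 hM hθ0.le hη0 V G hG x hsum
  set Zg : Finset V := (Zp ε' G x).filter
      (fun z => θ ≤ ((Sp T ε G x z).card : ℝ) - 2 / 3 * Wz T ε ε' G x z) with hZg
  have hT1 : ∀ z ∈ Zg, ∃ y : Fin k → V, Function.Injective y ∧ (∀ i, y i ∈ Sp T ε G x z) ∧
      ∀ i j, ¬ Sm ε G (y i) (y j) →
        ∑ a, ∑ b, (if Sm ε G (y a) (y i) ∧ Sm ε G (y b) (y j) then
          wp T ε ε' G x (y a) (y b) else 0) ≤ 1 := by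
    intro z hz
    rw [hZg, mem_filter] at hz
    exact hTPL k T ε ε' V G x z hk9 hG.free hhsn hz.2
  choose! Y hYinj hYS hYb using hT1
  obtain ⟨ρ, Z', hZ'sub, hZ'card, hρ⟩ := hPIG k V Zg Y (Sm ε G) (by omega)
    (fun z _ i => Sm.refl _) (fun z _ i j h => h.symm)
    (fun z hz i j l h1 h2 => Sp_trans (hYS z hz i) (hYS z hz j) (hYS z hz l) h1 h2)
  have hkk : (0 : ℝ) < (k : ℝ) ^ k := by positivity
  have hZ'c : c * Fintype.card V ≤ (Z'.card : ℝ) := by
    have h1 : (Zg.card : ℝ) ≤ (k : ℝ) ^ k * Z'.card := by exact_mod_cast hZ'card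
    have h2 := le_trans hgood h1
    rw [hc, div_mul_eq_mul_div, div_le_iff₀ hkk]
    linarith
  have hZ'ne : Z'.Nonempty := by
    rw [← card_pos]
    have : (0 : ℝ) < (Z'.card : ℝ) := lt_of_lt_of_le (by positivity) hZ'c
    exact_mod_cast this
  -- at least two classes
  have hcls : 2 ≤ cls ρ := by
    by_contra hlt
    have hle : (univ.image ρ).card ≤ 1 := by unfold cls at hlt; omega
    rw [card_le_one] at hle
    obtain ⟨z, hz⟩ := hZ'ne
    have hzg := hZ'sub hz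
    have hall : ∀ i j, Sm ε G (Y z i) (Y z j) := fun i j =>
      (hρ z hz i j).mp (hle _ (mem_image_of_mem _ (mem_univ _)) _
        (mem_image_of_mem _ (mem_univ _)))
    obtain ⟨a, ha, b, hb, hab, hlt⟩ := hHVY k V G hG.free x (univ.image (Y z))
      (by
        intro v hv
        obtain ⟨i, -, rfl⟩ := mem_image.mp hv
        have := Sp_sub (hYS z hzg i)
        rw [mem_cn] at this
        exact mem_nb.mpr this.1)
      (by rw [card_image_of_injective _ (hYinj z hzg), card_univ, Fintype.card_fin])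
    obtain ⟨i, -, rfl⟩ := mem_image.mp ha
    obtain ⟨j, -, rfl⟩ := mem_image.mp hb
    rcases hall i j with h | h
    · exact hab h
    · have h1 := h.2
      have h2 : (cd G (Y z i) (Y z j) : ℝ) < hk k := by exact_mod_cast hlt
      linarith
  have hYS' := hS ε' V G x ρ Z' Y hnp hG hTsn hcls
    (fun z hz => by
      have := hZ'sub hz
      rw [hZg, mem_filter] at this
      exact this.1)
    (fun z hz => hYinj z (hZ'sub hz)) (fun z hz i => hYS z (hZ'sub hz) i)
    (fun z hz i j => hρ z hz i j)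
    (fun z hz i j hij => by
      have h1 : ¬ Sm ε G (Y z i) (Y z j) := fun h => hij ((hρ z hz i j).mpr h)
      have h2 := hYb z (hZ'sub hz) i j h1
      unfold bl
      refine le_trans (le_of_eq ?_) h2
      refine sum_congr rfl (fun a _ => sum_congr rfl (fun b _ => ?_))
      have e1 : (ρ a = ρ i ∧ ρ b = ρ j) ↔ (Sm ε G (Y z a) (Y z i) ∧ Sm ε G (Y z b) (Y z j)) := by
        rw [hρ z hz a i, hρ z hz b j]
      by_cases h : ρ a = ρ i ∧ ρ b = ρ j
      · rw [if_pos h, if_pos (e1.mp h)]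
      · rw [if_neg h, if_neg (fun h' => h (e1.mpr h'))])
    hZ'c
  have hbad := hBAD k T M ε ε' hk2 hM hε hε'0 V G x ρ hG
  -- sizes
  have hDd : 1 ≤ Dd k M ε := by
    unfold Dd
    have : 0 ≤ C2 k M / ε ^ 2 := by positivity
    linarith
  have hsn1 : 0 < sn V := by
    unfold sn
    exact Real.sqrt_pos.mpr (by linarith)
  have hsB : 0 < sB k M ε V := by
    unfold sB
    have : 0 < Dd k M ε := by linarith
    positivity
  have hkey : (k : ℝ) ^ 3 * T * (ε' * sn V) * Dd k M ε ^ k * sB k M ε V ^ (cls ρ - 1) =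
      κ / 2 * sB k M ε V ^ cls ρ := by
    have e1 : sB k M ε V ^ cls ρ = sB k M ε V * sB k M ε V ^ (cls ρ - 1) := by
      rw [← pow_succ']
      congr 1
      omega
    rw [e1]
    have e2 : (k : ℝ) ^ 3 * T * (ε' * sn V) * Dd k M ε ^ k = κ / 2 * sB k M ε V := by
      rw [hε']
      unfold sB
      field_simp
    rw [e2]
    ring
  rw [hkey] at hbad
  have hlt : (((YS T ε ε' G x ρ).filter (fun y => Bad T ε ε' G x ρ y)).card : ℝ) <
      ((YS T ε ε' G x ρ).card : ℝ) := by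
    have : 0 < κ * sB k M ε V ^ cls ρ := by positivity
    linarith
  have hlt' : ((YS T ε ε' G x ρ).filter (fun y => Bad T ε ε' G x ρ y)).card <
      (YS T ε ε' G x ρ).card := by exact_mod_cast hlt
  obtain ⟨y, hy, hyb⟩ : ∃ y ∈ YS T ε ε' G x ρ, ¬ Bad T ε ε' G x ρ y := by
    by_contra hno
    push Not at hno
    rw [filter_true_of_mem hno] at hlt'
    exact lt_irrefl _ hlt'
  exact hG.free (hCPY k T ε ε' V G x ρ y hhsn hy hyb)

end Pool.Agent.H41.HKB
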