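import Pool.Agent.H41.HKB.Defs

/-!
# Targets of the board hkb_modules (MP_bd932b_co)

Page: /team-store/H41_HKB.md.
-/

set_option autoImplicit false

namespace Pool.Agent.H41.HKB

open Finset Filter Pool.Agent.H42.BD
open scoped Classical

/-! ## Tools -/

/-- **EMB**: greedy completion of a partial choice of connectors. -/
def T_EMB : Prop := ∀ (k : ℕ) (V : Type) [Fintype V] (G : SimpleGraph V) (x : V) (y : Fin k → V)
    (L : Finset (Pr k)) (z : Pr k → V), Function.Injective y → (∀ i, G.Adj x (y i)) →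
    (∀ p ∈ L, z p ≠ x ∧ (∀ i, z p ≠ y i) ∧ ∀ i ∈ p.1, G.Adj (y i) (z p)) →
    (∀ p ∈ L, ∀ q ∈ L, z p = z q → p = q) →
    (∀ i j : Fin k, i ≠ j → (∀ p ∈ L, ¬ (i ∈ p.1 ∧ j ∈ p.1)) → hk k ≤ cd G (y i) (y j)) →
    (HG k).IsContained G

/-- **HVY**: no heavy clique of `k` vertices in a neighbourhood. -/
def T_HVY : Prop := ∀ (k : ℕ) (V : Type) [Fintype V] (G : SimpleGraph V), (HG k).Free G →
    ∀ (x : V) (K : Finset V), K ⊆ nb G x → K.card = k →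
    ∃ a ∈ K, ∃ b ∈ K, a ≠ b ∧ cd G a b < hk k

/-- **CW**: Turan's bound for the number of edges in terms of the independence number. -/
def T_CW : Prop := ∀ (V : Type) (B : Finset V) (E : V → V → Prop) (m : ℕ),
    (∀ a b, E a b → E b a) →
    (∀ A ⊆ B, A.card = m + 1 → ∃ a ∈ A, ∃ b ∈ A, a ≠ b ∧ E a b) →
    B.card ^ 2 ≤ m * (B.card + ((B ×ˢ B).filter (fun p => p.1 ≠ p.2 ∧ E p.1 p.2)).card)

/-- The Ramsey property of `R` for `k`. -/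
def RamP (k R : ℕ) : Prop := ∀ (V : Type) (A : Finset V) (E : V → V → Prop),
    (∀ a b, E a b → E b a) → R ≤ A.card →
    ∃ K ⊆ A, K.card = k ∧
      ((∀ a ∈ K, ∀ b ∈ K, a ≠ b → E a b) ∨ (∀ a ∈ K, ∀ b ∈ K, a ≠ b → ¬ E a b))

/-- **RAM** -/
def T_RAM : Prop := ∀ k : ℕ, ∃ R : ℕ, RamP k R

/-- **DEG**: few edges at the vertices of large degree. -/
def T_DEG : Prop := ∀ (k : ℕ), 2 ≤ k → ∃ M : ℝ, 0 < M ∧ ∀ (V : Type) [Fintype V]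
    (G : SimpleGraph V), (HG k).Free G → ∃ G' : SimpleGraph V, Gd k M G' ∧
    ∑ v, ((nb G v).card : ℝ) - 8 * k * Fintype.card V ≤ ∑ v, ((nb G' v).card : ℝ)

/-- **L2**: the second moment of the codegrees. -/
def T_L2 : Prop := ∀ (k : ℕ) (M : ℝ), 2 ≤ k → 0 < M → ∀ (V : Type) [Fintype V]
    (G : SimpleGraph V), Gd k M G → ∀ y,
    ∑ y' ∈ univ.erase y, (cd G y y' : ℝ) ^ 2 ≤ C2 k M * Fintype.card V

/-- **DCT**: few deep partners. -/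
def T_DCT : Prop := ∀ (k : ℕ) (M ε : ℝ), 2 ≤ k → 0 < M → 0 < ε → ∀ (V : Type) [Fintype V]
    (G : SimpleGraph V), Gd k M G → ∀ y,
    ((univ.filter (fun v => Dp ε G y v)).card : ℝ) ≤ C2 k M / ε ^ 2

/-! ## Removal lemma -/

/-- **CNT**: the counting lemma for cliques. -/
def T_CNT : Prop := ∀ (q : ℕ) (d : ℝ), 0 < d → ∃ ε : ℝ, 0 < ε ∧ ∃ κ : ℝ, 0 < κ ∧
    ∀ (V : Type) [Fintype V] [DecidableEq V] (G : SimpleGraph V) [DecidableRel G.Adj]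
      (A : Fin q → Finset V),
    (∀ i j, i < j → G.IsUniform ε (A i) (A j) ∧ d ≤ (G.edgeDensity (A i) (A j) : ℝ)) →
    κ * ∏ i, ((A i).card : ℝ) ≤ (((univ : Finset (Fin q → V)).filter
      (fun f => (∀ i, f i ∈ A i) ∧ ∀ i j, i < j → G.Adj (f i) (f j))).card : ℝ)

/-- **RED**: the reduced graph. -/
def T_RED : Prop := ∀ (δ ε : ℝ), 0 < δ → 0 < ε → ∃ B : ℕ, 0 < B ∧
    ∀ (V : Type) [Fintype V] [DecidableEq V] (G : SimpleGraph V) [DecidableRel G.Adj],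
    B ≤ Fintype.card V → ∃ (G' : SimpleGraph V) (P : V → Finset V), G' ≤ G ∧
      (oe G : ℝ) - oe G' ≤ δ * (Fintype.card V : ℝ) ^ 2 ∧
      (∀ u, u ∈ P u ∧ Fintype.card V ≤ B * (P u).card) ∧
      ∀ u v, G'.Adj u v → G.IsUniform ε (P u) (P v) ∧
        δ / 16 ≤ (G.edgeDensity (P u) (P v) : ℝ)

/-- **REM**: the removal lemma for `K_q`. -/
def T_REM : Prop := ∀ (q : ℕ) (δ : ℝ), 0 < δ → ∃ κ : ℝ, 0 < κ ∧
    ∀ (V : Type) [Fintype V] (G : SimpleGraph V),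
    (∀ G' : SimpleGraph V, G' ≤ G → (oe G : ℝ) - oe G' ≤ δ * (Fintype.card V : ℝ) ^ 2 →
      ∃ f : Fin q → V, ∀ i j, i < j → G'.Adj (f i) (f j)) →
    κ * (Fintype.card V : ℝ) ^ q ≤ (((univ : Finset (Fin q → V)).filter
      (fun f => ∀ i j, i < j → G.Adj (f i) (f j))).card : ℝ)

/-- **PACK**: many templates give many transversal cliques. -/
def T_PACK : Prop := ∀ (k T : ℕ) (η : ℝ), 0 < η → ∃ κ : ℝ, 0 < κ ∧
    ∀ (I : Type) [Fintype I] (A : I → Type) [∀ i, Fintype (A i)]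
      (E : ∀ i j, A i → A j → Prop) (s : ℝ) (Z : Type) [Fintype Z] (t : Z → ∀ i, A i),
    2 ≤ Fintype.card I → Fintype.card I ≤ k → (∀ i j a b, E i j a b → E j i b a) → 0 < s →
    (∀ i, (Fintype.card (A i) : ℝ) ≤ s) →
    (∀ z i j, i ≠ j → E i j (t z i) (t z j)) →
    (∀ i j, i ≠ j → ∀ a b, ((univ.filter (fun z => t z i = a ∧ t z j = b)).card) ≤ T) →
    η * s ^ 2 ≤ Fintype.card Z →
    κ * s ^ (Fintype.card I) ≤ (((univ : Finset (∀ i, A i)).filter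
      (fun f => ∀ i j, i ≠ j → E i j (f i) (f j))).card : ℝ)

/-! ## Intermediate pairs -/

/-- **INA**: a block has many pairs of every relation that meets all light `k`-sets. -/
def T_INA : Prop := ∀ (k R : ℕ), 2 ≤ k → RamP k R → ∀ (V : Type) [Fintype V]
    (G : SimpleGraph V), (HG k).Free G → ∀ (y : V) (B : Finset V) (F : V → V → Prop),
    B ⊆ nb G y → 2 * R ≤ B.card → (∀ a b, F a b → F b a) →
    (∀ K ⊆ B, K.card = k → (∀ a ∈ K, ∀ b ∈ K, a ≠ b → cd G a b < hk k) →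
      ∃ a ∈ K, ∃ b ∈ K, a ≠ b ∧ F a b) →
    (B.card : ℝ) ^ 2 ≤ 2 * R * (((B ×ˢ B).filter (fun p => p.1 ≠ p.2 ∧ F p.1 p.2)).card : ℝ)

/-- **INB**: much weight on intermediate pairs gives many cliques of `Qr`
(`κ` and `c` do not depend on `ε`). -/
def T_INB : Prop := ∀ (k R T : ℕ) (M δ : ℝ), 2 ≤ k → RamP k R → 2 * R ≤ T → 0 < M → 0 < δ →
    ∃ κ : ℝ, 0 < κ ∧ ∃ c : ℝ, 0 < c ∧ ∀ (ε : ℝ) (V : Type) [Fintype V] (G : SimpleGraph V),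
    Gd k M G → ∀ y, δ * Fintype.card V < Is T ε G y →
    c * sn V ≤ ((nb G y).card : ℝ) ∧
    κ * ((nb G y).card : ℝ) ^ k ≤ (((univ : Finset (Fin k → V)).filter
      (fun f => (∀ i, f i ∈ nb G y) ∧ ∀ i j, i < j → Qr k T ε G y (f i) (f j))).card : ℝ)

/-- a tuple in `N(y)` for which some block meets the tuple in a wrong way -/
def BadI {V : Type} [Fintype V] (k T : ℕ) (ε : ℝ) (G : SimpleGraph V) (y : V)
    (f : Fin k → V) : Prop :=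
  ∃ i j l : Fin k, i ≠ j ∧ l ≠ i ∧ l ≠ j ∧ cd G (f i) (f j) < hk k ∧
    ∃ y', Im T ε G y y' ∧ f i ∈ cn G y y' ∧ f j ∈ cn G y y' ∧ (f l ∈ cn G y y' ∨ f l = y')

/-- **INC**: few bad tuples. -/
def T_INC : Prop := ∀ (k T : ℕ) (ε : ℝ) (V : Type) [Fintype V] (G : SimpleGraph V) (y : V),
    0 ≤ ε → (((univ : Finset (Fin k → V)).filter
      (fun f => (∀ i, f i ∈ nb G y) ∧ BadI k T ε G y f)).card : ℝ) ≤
    (k : ℝ) ^ 3 * hk k * (ε * sn V + 1) * ((nb G y).card : ℝ) ^ (k - 1)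

/-- **IND**: in an `H_k`-free graph every clique of `Qr` is bad. -/
def T_IND : Prop := ∀ (k T : ℕ) (ε : ℝ) (V : Type) [Fintype V] (G : SimpleGraph V) (y : V)
    (f : Fin k → V), (HG k).Free G → (∀ i, f i ∈ nb G y) →
    (∀ i j, i < j → Qr k T ε G y (f i) (f j)) → BadI k T ε G y f

/-- **INT**: the intermediate pairs carry no weight. -/
def T_INT : Prop := ∀ (k : ℕ), 2 ≤ k → ∃ T : ℕ, hk k ≤ T ∧ ∀ (M δ : ℝ), 0 < M → 0 < δ →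
    ∃ ε : ℝ, 0 < ε ∧ ∃ n0 : ℕ, ∀ (V : Type) [Fintype V] (G : SimpleGraph V),
    n0 ≤ Fintype.card V → Gd k M G → ∀ y, Is T ε G y ≤ δ * Fintype.card V

/-! ## The centre -/

/-- **SPL**: the cleaning costs little. -/
def T_SPL : Prop := ∀ (k T : ℕ) (M ε δ : ℝ), 2 ≤ k → 0 < M → 0 < ε → ∀ (V : Type) [Fintype V]
    (G : SimpleGraph V), Gd k M G → (∀ y, Is T ε G y ≤ δ * Fintype.card V) →
    ∑ x, ∑ z, (((cn G x z).card : ℝ) - (Sp T ε G x z).card) ≤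
      δ * (Fintype.card V : ℝ) ^ 2 + (C2 k M / ε ^ 2) ^ 2 * (T : ℝ) ^ 2 * Fintype.card V

/-- **OUT**: the excluded connectors carry little. -/
def T_OUT : Prop := ∀ (k : ℕ) (M ε' : ℝ), 2 ≤ k → 0 < M → 0 < ε' → ∀ (V : Type) [Fintype V]
    (G : SimpleGraph V), Gd k M G → ∀ x,
    ∑ z ∈ univ \ Zp ε' G x, (cd G x z : ℝ) ≤
      M * sn V + Real.sqrt (M * sn V * (C2 k M * Fintype.card V)) +
        C2 k M / ε' ^ 2 * (M * sn V)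

/-- **XCH**: the choice of the centre. -/
def T_XCH : Prop := ∀ (k T : ℕ) (M ε ε' δ lam : ℝ), 2 ≤ k → 0 < M → 0 < ε → 0 < ε' → 0 < δ →
    0 < lam → ∃ n0 : ℕ, ∀ (V : Type) [Fintype V] (G : SimpleGraph V), n0 ≤ Fintype.card V →
    Gd k M G → (∀ y, Is T ε G y ≤ δ * Fintype.card V) →
    lam * (Fintype.card V : ℝ) ^ 2 ≤ ∑ v, ((nb G v).card : ℝ) ^ 2 →
    ∃ x, (2 / 3 * lam - 2 * δ) * Fintype.card V ≤
      ∑ z ∈ Zp ε' G x, ((Sp T ε G x z).card : ℝ) - ((nb G x).card : ℝ) ^ 2 / 3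

/-- **WSM**: the sum of the weights. -/
def T_WSM : Prop := ∀ (T : ℕ) (ε ε' : ℝ) (V : Type) [Fintype V] (G : SimpleGraph V) (x : V),
    ∑ z ∈ Zp ε' G x, Wz T ε ε' G x z ≤ ((nb G x).card : ℝ) ^ 2 / 2

/-- **GZ**: many good connectors. -/
def T_GZ : Prop := ∀ (k T : ℕ) (M ε ε' θ η : ℝ), 2 ≤ k → 0 < M → 0 ≤ θ → 0 < η →
    ∀ (V : Type) [Fintype V] (G : SimpleGraph V), Gd k M G → ∀ x,
    (θ + η) * Fintype.card V ≤
      ∑ z ∈ Zp ε' G x, (((Sp T ε G x z).card : ℝ) - 2 / 3 * Wz T ε ε' G x z) →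
    η ^ 2 / C2 k M * Fintype.card V ≤ (((Zp ε' G x).filter
      (fun z => θ ≤ ((Sp T ε G x z).card : ℝ) - 2 / 3 * Wz T ε ε' G x z)).card : ℝ)

/-! ## Selection -/

/-- **SLA**: a random subset. -/
def T_SLA : Prop := ∀ (V : Type) (S : Finset V) (r : V → V → Prop) (g : ℕ) (w : V → V → ℝ)
    (p : ℝ), 0 ≤ p → p ≤ 1 → 1 ≤ g → (∀ a b, 0 ≤ w a b) →
    (∀ a ∈ S, (S.filter (r a)).card ≤ g) → (∀ a ∈ S, r a a) →
    ∃ K ⊆ S, p * S.card - p ^ 2 * (1 + p * ((g : ℝ) - 1)) *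
        ((1 / 2) * ∑ a ∈ S, ∑ b ∈ S, (if r a b then 0 else w a b)) ≤
      K.card - (1 / 2) * ∑ a ∈ K, ∑ b ∈ K,
        (if r a b then 0 else w a b * ((K.filter (r a)).card : ℝ))

/-- **SLB**: deletion of bad blocks. -/
def T_SLB : Prop := ∀ (V : Type) (S : Finset V) (r : V → V → Prop) (w : V → V → ℝ),
    (∀ a b, 0 ≤ w a b) → (∀ a b, w a b = w b a) → (∀ a ∈ S, r a a) →
    (∀ a ∈ S, ∀ b ∈ S, r a b → r b a) →
    (∀ a ∈ S, ∀ b ∈ S, ∀ c ∈ S, r a b → r b c → r a c) →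
    ∃ K ⊆ S, (∀ a ∈ K, ∀ b ∈ K, ¬ r a b →
        ∑ a' ∈ K.filter (r a), ∑ b' ∈ K.filter (r b), w a' b' < 1) ∧
      (S.card : ℝ) - (1 / 2) * ∑ a ∈ S, ∑ b ∈ S,
        (if r a b then 0 else w a b * ((S.filter (r a)).card : ℝ)) ≤ K.card

/-- **SEL** -/
def T_SEL : Prop := ∀ (V : Type) (S : Finset V) (r : V → V → Prop) (g : ℕ) (w : V → V → ℝ)
    (p : ℝ), 0 ≤ p → p ≤ 1 → 1 ≤ g → (∀ a b, 0 ≤ w a b) → (∀ a b, w a b = w b a) →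
    (∀ a ∈ S, (S.filter (r a)).card ≤ g) → (∀ a ∈ S, r a a) →
    (∀ a ∈ S, ∀ b ∈ S, r a b → r b a) →
    (∀ a ∈ S, ∀ b ∈ S, ∀ c ∈ S, r a b → r b c → r a c) →
    ∃ K ⊆ S, (∀ a ∈ K, ∀ b ∈ K, ¬ r a b →
        ∑ a' ∈ K.filter (r a), ∑ b' ∈ K.filter (r b), w a' b' < 1) ∧
      p * S.card - p ^ 2 * (1 + p * ((g : ℝ) - 1)) *
        ((1 / 2) * ∑ a ∈ S, ∑ b ∈ S, (if r a b then 0 else w a b)) ≤ K.card

/-- **TPL**: the template of a good connector. -/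
def T_TPL : Prop := ∀ (k T : ℕ) (ε ε' : ℝ) (V : Type) [Fintype V] (G : SimpleGraph V) (x z : V),
    9 ≤ k → (HG k).Free G → (hk k : ℝ) ≤ ε * sn V →
    (3 / 2) * Real.sqrt k ^ 3 ≤ ((Sp T ε G x z).card : ℝ) - 2 / 3 * Wz T ε ε' G x z →
    ∃ y : Fin k → V, Function.Injective y ∧ (∀ i, y i ∈ Sp T ε G x z) ∧
      ∀ i j, ¬ Sm ε G (y i) (y j) →
        ∑ a, ∑ b, (if Sm ε G (y a) (y i) ∧ Sm ε G (y b) (y j) then
          wp T ε ε' G x (y a) (y b) else 0) ≤ 1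

/-- **PIG**: the same pattern for many templates. -/
def T_PIG : Prop := ∀ (k : ℕ) (V : Type) (Z : Finset V) (Y : V → Fin k → V)
    (r : V → V → Prop), 1 ≤ k →
    (∀ z ∈ Z, ∀ i, r (Y z i) (Y z i)) →
    (∀ z ∈ Z, ∀ i j, r (Y z i) (Y z j) → r (Y z j) (Y z i)) →
    (∀ z ∈ Z, ∀ i j l, r (Y z i) (Y z j) → r (Y z j) (Y z l) → r (Y z i) (Y z l)) →
    ∃ ρ : Fin k → Fin k, ∃ Z' ⊆ Z, Z.card ≤ k ^ k * Z'.card ∧
      ∀ z ∈ Z', ∀ i j, (ρ i = ρ j ↔ r (Y z i) (Y z j))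

/-! ## The generic copy -/

/-- **CTP**: deep tuples with one given coordinate. -/
def T_CTP : Prop := ∀ (k : ℕ) (M ε : ℝ), 2 ≤ k → 0 < M → 0 < ε → ∀ (V : Type) [Fintype V]
    (G : SimpleGraph V), Gd k M G → ∀ (C : Type) [Fintype C] (l : C) (v : V),
    Fintype.card C ≤ k →
    (((univ : Finset (C → V)).filter
      (fun g => g l = v ∧ ∀ i j, i ≠ j → Dp ε G (g i) (g j))).card : ℝ) ≤ Dd k M ε ^ k

/-- **CTQ**: deep tuples in a neighbourhood. -/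
def T_CTQ : Prop := ∀ (k : ℕ) (M ε : ℝ), 2 ≤ k → 0 < M → 0 < ε → ∀ (V : Type) [Fintype V]
    (G : SimpleGraph V), Gd k M G → ∀ (C : Type) [Fintype C] (x : V), 1 ≤ Fintype.card C →
    Fintype.card C ≤ k →
    (((univ : Finset (C → V)).filter
      (fun g => (∀ i, G.Adj x (g i)) ∧ ∀ i j, i ≠ j → Dp ε G (g i) (g j))).card : ℝ) ≤
      sB k M ε V

/-- **SUP**: many tuples of pattern `ρ` (`κ` does not depend on `ε'`). -/
def T_SUP : Prop := ∀ (k T : ℕ) (M ε c : ℝ), 2 ≤ k → 0 < M → 0 < ε → 0 < c → ∃ κ : ℝ, 0 < κ ∧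
    ∀ (ε' : ℝ) (V : Type) [Fintype V] (G : SimpleGraph V) (x : V) (ρ : Fin k → Fin k)
      (Z : Finset V) (Y : V → Fin k → V), 1 ≤ Fintype.card V → Gd k M G →
    (T : ℝ) ≤ ε * sn V → 2 ≤ cls ρ → Z ⊆ Zp ε' G x →
    (∀ z ∈ Z, Function.Injective (Y z)) → (∀ z ∈ Z, ∀ i, Y z i ∈ Sp T ε G x z) →
    (∀ z ∈ Z, ∀ i j, (ρ i = ρ j ↔ Sm ε G (Y z i) (Y z j))) →
    (∀ z ∈ Z, ∀ i j, ρ i ≠ ρ j → bl T ε ε' G x ρ (Y z) i j ≤ 1) →
    c * Fintype.card V ≤ (Z.card : ℝ) →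
    κ * sB k M ε V ^ cls ρ ≤ ((YS T ε ε' G x ρ).card : ℝ)

/-- **BAD**: few bad tuples of pattern `ρ`. -/
def T_BAD : Prop := ∀ (k T : ℕ) (M ε ε' : ℝ), 2 ≤ k → 0 < M → 0 < ε → 0 < ε' →
    ∀ (V : Type) [Fintype V] (G : SimpleGraph V) (x : V) (ρ : Fin k → Fin k), Gd k M G →
    (((YS T ε ε' G x ρ).filter (fun y => Bad T ε ε' G x ρ y)).card : ℝ) ≤
      (k : ℝ) ^ 3 * T * (ε' * sn V) * Dd k M ε ^ k * sB k M ε V ^ (cls ρ - 1)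

/-- **BLK**: Hall's theorem in a block. -/
def T_BLK : Prop := ∀ (P V : Type) [Fintype P] (N : P → Finset V), (∀ p, (N p).Nonempty) →
    ∑ p, 1 / ((N p).card : ℝ) ≤ 1 → ∃ φ : P → V, Function.Injective φ ∧ ∀ p, φ p ∈ N p

/-- **CPY**: a good tuple gives a copy of `H_k`. -/
def T_CPY : Prop := ∀ (k T : ℕ) (ε ε' : ℝ) (V : Type) [Fintype V] (G : SimpleGraph V) (x : V)
    (ρ : Fin k → Fin k) (y : Fin k → V), (hk k : ℝ) ≤ ε * sn V → y ∈ YS T ε ε' G x ρ →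
    ¬ Bad T ε ε' G x ρ y → (HG k).IsContained G

/-! ## Assembly -/

/-- **LOC** -/
def T_LOC : Prop := ∀ (k : ℕ) (M lam : ℝ), 9 ≤ k → 0 < M → (9 / 4) * Real.sqrt k ^ 3 < lam →
    ∃ n0 : ℕ, ∀ (V : Type) [Fintype V] (G : SimpleGraph V), n0 ≤ Fintype.card V → Gd k M G →
    ∑ v, ((nb G v).card : ℝ) ^ 2 < lam * (Fintype.card V : ℝ) ^ 2

/-- **ASY** -/
def T_ASY : Prop := ∀ (k : ℕ), 9 ≤ k →
    Filter.limsup (fun n : ℕ => fT n k / (n : ℝ) ^ ((3 : ℝ) / 2)) atTop ≤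
      (3 / 4) * (k : ℝ) ^ ((3 : ℝ) / 4)

/-- **FIN**: the theorem. -/
def T_FIN : Prop := ∀ (k : ℕ), 2 ≤ k →
    Filter.limsup (fun n : ℕ => fT n k / (n : ℝ) ^ ((3 : ℝ) / 2)) atTop ≤
      (3 / 4) * (k : ℝ) ^ ((3 : ℝ) / 4)

end Pool.Agent.H41.HKB
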